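import Mathlib

/-!
# MP_75315a_co: at least `n ^ (4 / 3) / 81` triangles of unit perimeter

`unitTriangles P` is the set of the 3-element subsets `{a, b, c}` of `P` which are not collinear
and have perimeter `|ab| + |bc| + |ca| = 1`; `u n` is the maximum of its cardinality over all
`n`-point sets of the plane.

Construction: for `C ≥ 2` take the points `(ξ / (4 C²), b / (2 C))` with `0 ≤ ξ < 4 C²` and
`0 ≤ b < 2 C`. For `1 ≤ t < C` the isosceles triangle with apex `(η / (4 C²), a / (2 C))` and base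
points `((η ± (C² - t²)) / (4 C²), (a + t) / (2 C))` has the sides `(C² + t²) / (4 C²)` (twice) and
`2 (C² - t²) / (4 C²)`, so its perimeter is `1`.
-/

open Finset

namespace Pool.Agent.Results.MP_75315a_co.FourThirds

/-- the plane -/
abbrev Plane := EuclideanSpace ℝ (Fin 2)

open Classical in
/-- The non-degenerate triangles of perimeter one spanned by `P`, as 3-element subsets of `P`. -/
noncomputable def unitTriangles (P : Finset Plane) : Finset (Finset Plane) :=
  {T ∈ P.powersetCard 3 | ∃ a b c : Plane, T = {a, b, c} ∧ ¬ Collinear ℝ {a, b, c} ∧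
    dist a b + dist b c + dist c a = 1}

/-- The maximum number of triangles of perimeter one spanned by `n` points of the plane. -/
noncomputable def u (n : ℕ) : ℕ :=
  sSup {m | ∃ P : Finset Plane, P.card = n ∧ m = (unitTriangles P).card}

/-- the points of the construction -/
noncomputable def pt (C : ℕ) (x y : ℕ) : Plane :=
  !₂[(x : ℝ) / (4 * (C : ℝ) ^ 2), (y : ℝ) / (2 * C)]

theorem pt_zero (C x y : ℕ) : pt C x y 0 = (x : ℝ) / (4 * (C : ℝ) ^ 2) := rfl

theorem pt_one (C x y : ℕ) : pt C x y 1 = (y : ℝ) / (2 * C) := rfl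

theorem pt_inj {C : ℕ} (hC : 0 < C) {x y x' y' : ℕ} (h : pt C x y = pt C x' y') :
    x = x' ∧ y = y' := by
  have hC' : (0 : ℝ) < C := by exact_mod_cast hC
  have h0 := congrArg (fun p : Plane => p 0) h
  have h1 := congrArg (fun p : Plane => p 1) h
  simp only [pt_zero, pt_one] at h0 h1
  rw [div_left_inj' (by positivity)] at h0 h1
  exact ⟨by exact_mod_cast h0, by exact_mod_cast h1⟩

theorem dist_pt (C x y x' y' : ℕ) : dist (pt C x y) (pt C x' y') =
    √(((x : ℝ) / (4 * (C : ℝ) ^ 2) - (x' : ℝ) / (4 * (C : ℝ) ^ 2)) ^ 2 +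
      ((y : ℝ) / (2 * C) - (y' : ℝ) / (2 * C)) ^ 2) := by
  rw [EuclideanSpace.dist_eq, Fin.sum_univ_two]
  simp only [pt_zero, pt_one, Real.dist_eq, sq_abs]

/-- the triangle of the construction -/
noncomputable def tri (C : ℕ) (q : ℕ × ℕ × ℕ) : Finset Plane :=
  open Classical in
  {pt C q.2.2 q.2.1, pt C (q.2.2 + (C ^ 2 - q.1 ^ 2)) (q.2.1 + q.1),
    pt C (q.2.2 - (C ^ 2 - q.1 ^ 2)) (q.2.1 + q.1)}

/-- the parameters `(t, a, η)` -/
def params (C : ℕ) : Finset (ℕ × ℕ × ℕ) := Ico 1 C ×ˢ (range C ×ˢ Ico (C ^ 2) (3 * C ^ 2))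

theorem card_params (C : ℕ) : (params C).card = (C - 1) * (C * (2 * C ^ 2)) := by
  rw [params, card_product, card_product, Nat.card_Ico, card_range, Nat.card_Ico]
  congr 2
  omega

/-- the point set of the construction -/
noncomputable def base (C : ℕ) : Finset Plane :=
  open Classical in
  (range (4 * C ^ 2) ×ˢ range (2 * C)).image (fun q => pt C q.1 q.2)

theorem card_base {C : ℕ} (hC : 0 < C) : (base C).card = 8 * C ^ 3 := by
  rw [base, card_image_of_injective]
  · rw [card_product, card_range, card_range]; ring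
  · intro q q' h
    have := pt_inj hC h
    exact Prod.ext this.1 this.2

theorem tri_mem {C : ℕ} (hC : 0 < C) {q : ℕ × ℕ × ℕ} (hq : q ∈ params C) {P : Finset Plane}
    (hP : base C ⊆ P) : tri C q ∈ unitTriangles P := by
  classical
  obtain ⟨t, a, η⟩ := q
  rw [params, mem_product, mem_product, mem_Ico, mem_range, mem_Ico] at hq
  obtain ⟨⟨ht1, htC⟩, haC, hη1, hη2⟩ := hq
  simp only at ht1 htC haC hη1 hη2
  have hC' : (0 : ℝ) < C := by exact_mod_cast hC
  have htt : t ^ 2 < C ^ 2 := Nat.pow_lt_pow_left htC (by norm_num)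
  obtain ⟨w, hw⟩ : ∃ w, w = C ^ 2 - t ^ 2 := ⟨_, rfl⟩
  have hw0 : 0 < w := by omega
  have hwC : w ≤ C ^ 2 := by omega
  have hwR : (w : ℝ) = (C : ℝ) ^ 2 - (t : ℝ) ^ 2 := by
    rw [hw, Nat.cast_sub htt.le]; push_cast; ring
  have hmem : ∀ x y : ℕ, x < 4 * C ^ 2 → y < 2 * C → pt C x y ∈ P := by
    intro x y hx hy
    apply hP
    rw [base, mem_image]
    exact ⟨(x, y), by rw [mem_product, mem_range, mem_range]; exact ⟨hx, hy⟩, rfl⟩
  have hsub : ((η - w : ℕ) : ℝ) = (η : ℝ) - w := by rw [Nat.cast_sub (by omega)]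
  have ht0 : (0 : ℝ) < t := by exact_mod_cast ht1
  have hw0' : (0 : ℝ) < w := by exact_mod_cast hw0
  have hne1 : pt C η a ≠ pt C (η + w) (a + t) := by
    intro h
    have := (pt_inj hC h).2
    omega
  have hne2 : pt C η a ≠ pt C (η - w) (a + t) := by
    intro h
    have := (pt_inj hC h).2
    omega
  have hne3 : pt C (η + w) (a + t) ≠ pt C (η - w) (a + t) := by
    intro h
    have := (pt_inj hC h).1
    omega
  have htri : tri C (t, a, η) = {pt C η a, pt C (η + w) (a + t), pt C (η - w) (a + t)} := by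
    rw [tri, hw]
  rw [htri, unitTriangles, mem_filter, mem_powersetCard]
  refine ⟨⟨?_, ?_⟩, pt C η a, pt C (η + w) (a + t), pt C (η - w) (a + t), rfl, ?_, ?_⟩
  · intro p hp
    simp only [mem_insert, mem_singleton] at hp
    rcases hp with rfl | rfl | rfl
    · exact hmem _ _ (by omega) (by omega)
    · exact hmem _ _ (by omega) (by omega)
    · exact hmem _ _ (by omega) (by omega)
  · rw [card_insert_of_notMem, card_insert_of_notMem, card_singleton]
    · simpa using hne3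
    · simp only [mem_insert, mem_singleton, not_or]
      exact ⟨hne1, hne2⟩
  · intro hcol
    rw [collinear_iff_of_mem (p₀ := pt C η a) (by simp)] at hcol
    obtain ⟨v, hv⟩ := hcol
    obtain ⟨r, hr⟩ := hv (pt C (η + w) (a + t)) (by simp)
    obtain ⟨r', hr'⟩ := hv (pt C (η - w) (a + t)) (by simp)
    have e0 := congrArg (fun p : Plane => p 0) hr
    have e1 := congrArg (fun p : Plane => p 1) hr
    have e0' := congrArg (fun p : Plane => p 0) hr'
    have e1' := congrArg (fun p : Plane => p 1) hr'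
    simp only [vadd_eq_add, PiLp.add_apply, PiLp.smul_apply, smul_eq_mul, pt_zero, pt_one, hsub]
      at e0 e1 e0' e1'
    push_cast at e0 e1 e0' e1'
    have f0 : (w : ℝ) / (4 * (C : ℝ) ^ 2) = r * v 0 := by
      have : (w : ℝ) / (4 * (C : ℝ) ^ 2) = ((η : ℝ) + w) / (4 * (C : ℝ) ^ 2) -
        η / (4 * (C : ℝ) ^ 2) := by ring
      rw [this, e0]; ring
    have f0' : -((w : ℝ) / (4 * (C : ℝ) ^ 2)) = r' * v 0 := by
      have : -((w : ℝ) / (4 * (C : ℝ) ^ 2)) = ((η : ℝ) - w) / (4 * (C : ℝ) ^ 2) -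
        η / (4 * (C : ℝ) ^ 2) := by ring
      rw [this, e0']; ring
    have f1 : (t : ℝ) / (2 * C) = r * v 1 := by
      have : (t : ℝ) / (2 * C) = ((a : ℝ) + t) / (2 * C) - a / (2 * C) := by ring
      rw [this, e1]; ring
    have f1' : (t : ℝ) / (2 * C) = r' * v 1 := by
      have : (t : ℝ) / (2 * C) = ((a : ℝ) + t) / (2 * C) - a / (2 * C) := by ring
      rw [this, e1']; ring
    have key : ((w : ℝ) / (4 * (C : ℝ) ^ 2)) * ((t : ℝ) / (2 * C)) =
        -((w : ℝ) / (4 * (C : ℝ) ^ 2)) * ((t : ℝ) / (2 * C)) := by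
      calc ((w : ℝ) / (4 * (C : ℝ) ^ 2)) * ((t : ℝ) / (2 * C)) = (r * v 0) * (r' * v 1) := by
            rw [← f0, ← f1']
        _ = (r' * v 0) * (r * v 1) := by ring
        _ = -((w : ℝ) / (4 * (C : ℝ) ^ 2)) * ((t : ℝ) / (2 * C)) := by rw [← f0', ← f1]
    have hpos : 0 < ((w : ℝ) / (4 * (C : ℝ) ^ 2)) * ((t : ℝ) / (2 * C)) := by positivity
    linarith
  · have hs : (0 : ℝ) ≤ ((C : ℝ) ^ 2 + (t : ℝ) ^ 2) / (4 * (C : ℝ) ^ 2) := by positivity
    have d1 : dist (pt C η a) (pt C (η + w) (a + t)) =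
        ((C : ℝ) ^ 2 + (t : ℝ) ^ 2) / (4 * (C : ℝ) ^ 2) := by
      rw [dist_pt, ← Real.sqrt_sq hs]
      congr 1
      push_cast
      rw [hwR]
      field_simp
      ring
    have d2 : dist (pt C (η - w) (a + t)) (pt C η a) =
        ((C : ℝ) ^ 2 + (t : ℝ) ^ 2) / (4 * (C : ℝ) ^ 2) := by
      rw [dist_pt, ← Real.sqrt_sq hs, hsub]
      congr 1
      push_cast
      rw [hwR]
      field_simp
      ring
    have d3 : dist (pt C (η + w) (a + t)) (pt C (η - w) (a + t)) =
        2 * ((C : ℝ) ^ 2 - (t : ℝ) ^ 2) / (4 * (C : ℝ) ^ 2) := by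
      have hs' : (0 : ℝ) ≤ 2 * ((C : ℝ) ^ 2 - (t : ℝ) ^ 2) / (4 * (C : ℝ) ^ 2) := by
        rw [← hwR]; positivity
      rw [dist_pt, ← Real.sqrt_sq hs', hsub]
      congr 1
      push_cast
      rw [hwR]
      field_simp
      ring
    rw [d1, d2, d3]
    field_simp
    ring

theorem tri_inj {C : ℕ} (hC : 0 < C) : Set.InjOn (tri C) (params C : Set (ℕ × ℕ × ℕ)) := by
  classical
  rintro ⟨t, a, η⟩ hq ⟨t', a', η'⟩ hq' h
  rw [mem_coe, params, mem_product, mem_product, mem_Ico, mem_range, mem_Ico] at hq hq'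
  obtain ⟨⟨ht1, htC⟩, haC, hη1, hη2⟩ := hq
  obtain ⟨⟨ht1', htC'⟩, haC', hη1', hη2'⟩ := hq'
  simp only at ht1 htC haC hη1 hη2 ht1' htC' haC' hη1' hη2'
  have m1 : pt C η a ∈ tri C (t', a', η') := by rw [← h]; simp [tri]
  have m2 : pt C η' a' ∈ tri C (t, a, η) := by rw [h]; simp [tri]
  have m3 : pt C (η + (C ^ 2 - t ^ 2)) (a + t) ∈ tri C (t', a', η') := by rw [← h]; simp [tri]
  simp only [tri, mem_insert, mem_singleton] at m1 m2 m3
  have haa : a = a' ∧ η = η' := by
    rcases m1 with m1 | m1 | m1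
    · have := pt_inj hC m1
      exact ⟨this.2, this.1⟩
    · have e := (pt_inj hC m1).2
      rcases m2 with m2 | m2 | m2
      · have := (pt_inj hC m2).2; omega
      · have := (pt_inj hC m2).2; omega
      · have := (pt_inj hC m2).2; omega
    · have e := (pt_inj hC m1).2
      rcases m2 with m2 | m2 | m2
      · have := (pt_inj hC m2).2; omega
      · have := (pt_inj hC m2).2; omega
      · have := (pt_inj hC m2).2; omega
  have htt : t = t' := by
    rcases m3 with m3 | m3 | m3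
    · have := (pt_inj hC m3).2; omega
    · have := (pt_inj hC m3).2; omega
    · have := (pt_inj hC m3).2; omega
  rw [haa.1, haa.2, htt]

theorem card_unitTriangles_le (P : Finset Plane) : (unitTriangles P).card ≤ P.card.choose 3 := by
  classical
  rw [← card_powersetCard]
  exact card_le_card (filter_subset _ _)

theorem le_u (P : Finset Plane) : (unitTriangles P).card ≤ u P.card := by
  refine le_csSup ⟨P.card.choose 3, ?_⟩ ⟨P, rfl, rfl⟩
  rintro m ⟨Q, hQ, rfl⟩
  rw [← hQ]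
  exact card_unitTriangles_le Q

theorem lower {C n : ℕ} (hC : 0 < C) (hn : 8 * C ^ 3 ≤ n) :
    (C - 1) * (C * (2 * C ^ 2)) ≤ u n := by
  classical
  obtain ⟨P, hP, hPc⟩ := Infinite.exists_superset_card_eq (base C) n (by rw [card_base hC]; exact hn)
  rw [← hPc, ← card_params]
  refine le_trans ?_ (le_u P)
  exact card_le_card_of_injOn (tri C) (fun q hq => tri_mem hC hq hP) (tri_inj hC)

/-- **Main result.** For `n ≥ 64` there are `n` points in the plane which span at least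
`n ^ (4 / 3) / 81` non-degenerate triangles of perimeter one. -/
theorem result (n : ℕ) (hn : 64 ≤ n) : (n : ℝ) ^ (4 / 3 : ℝ) / 81 ≤ u n := by
  -- `C` is the integer part of the cube root of `n / 8`
  obtain ⟨C, hC1, hC2⟩ : ∃ C : ℕ, 8 * C ^ 3 ≤ n ∧ n < 8 * (C + 1) ^ 3 := by
    have hex : ∃ C : ℕ, n < 8 * (C + 1) ^ 3 := ⟨n, by nlinarith [Nat.zero_le (n ^ 3), Nat.zero_le (n ^ 2)]⟩
    classical
    refine ⟨Nat.find hex, ?_, Nat.find_spec hex⟩
    rcases Nat.eq_zero_or_pos (Nat.find hex) with h0 | h0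
    · rw [h0]; simp
    · have := Nat.find_min hex (m := Nat.find hex - 1) (by omega)
      rw [Nat.sub_add_cancel h0] at this
      omega
  have hC : 2 ≤ C := by
    by_contra h
    have : C + 1 ≤ 2 := by omega
    have h2 : (C + 1) ^ 3 ≤ 2 ^ 3 := Nat.pow_le_pow_left this 3
    omega
  have h1 := lower (n := n) (show 0 < C by omega) hC1
  have hCR : (2 : ℝ) ≤ C := by exact_mod_cast hC
  have h2 : ((C : ℝ) - 1) * (C * (2 * (C : ℝ) ^ 2)) ≤ u n := by
    have : (((C - 1 : ℕ) : ℝ)) * (C * (2 * (C : ℝ) ^ 2)) ≤ u n := by exact_mod_cast h1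
    rwa [Nat.cast_sub (by omega), Nat.cast_one] at this
  have h3 : (C : ℝ) ^ 4 ≤ u n := by
    refine le_trans ?_ h2
    have : 0 ≤ (C : ℝ) ^ 3 := by positivity
    nlinarith
  have h4 : (n : ℝ) ≤ (3 * C) ^ 3 := by
    have : (n : ℝ) < 8 * ((C : ℝ) + 1) ^ 3 := by exact_mod_cast hC2
    have h5 : 2 * ((C : ℝ) + 1) ≤ 3 * C := by linarith
    have h6 : (2 * ((C : ℝ) + 1)) ^ 3 ≤ (3 * C) ^ 3 := pow_le_pow_left₀ (by positivity) h5 3
    nlinarith
  have h5 : (n : ℝ) ^ (4 / 3 : ℝ) ≤ ((3 * (C : ℝ)) ^ 3) ^ (4 / 3 : ℝ) :=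
    Real.rpow_le_rpow (Nat.cast_nonneg _) h4 (by norm_num)
  have h6 : ((3 * (C : ℝ)) ^ 3) ^ (4 / 3 : ℝ) = (3 * (C : ℝ)) ^ 4 := by
    rw [← Real.rpow_natCast, ← Real.rpow_mul (by positivity), ← Real.rpow_natCast]
    congr 1
    norm_num
  rw [h6] at h5
  rw [div_le_iff₀ (by norm_num)]
  calc (n : ℝ) ^ (4 / 3 : ℝ) ≤ (3 * (C : ℝ)) ^ 4 := h5
    _ = (C : ℝ) ^ 4 * 81 := by ring
    _ ≤ u n * 81 := by nlinarith

end Pool.Agent.Results.MP_75315a_co.FourThirds
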