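import Mathlib

/-!
# A positive-fraction version of Kirchberger's theorem
-/

open Finset Filter Topology

namespace Pool.Agent.W282.Kirch

/-- Some hyperplane `{x | ∑ w i * x i = t}`, `w ≠ 0`, has all of `P` strictly on one side and all
of `Q` strictly on the other side. -/
def Separated {d : ℕ} (P Q : Finset (Fin d → ℝ)) : Prop :=
  ∃ (w : Fin d → ℝ) (t : ℝ), w ≠ 0 ∧
    (∀ x ∈ P, t < ∑ i, w i * x i) ∧ ∀ x ∈ Q, ∑ i, w i * x i < t

/-- No `d + 1` points of `P` lie on a common affine hyperplane `{x | ∑ w i * x i = t}`, `w ≠ 0`. -/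
def GeneralPosition {d : ℕ} (P : Finset (Fin d → ℝ)) : Prop :=
  ∀ (w : Fin d → ℝ) (t : ℝ), w ≠ 0 → ∀ S ⊆ P, (∀ x ∈ S, ∑ i, w i * x i = t) → S.card ≤ d

variable {d : ℕ}

/-- The affine functional `x ↦ ∑ w i * x i - t`, as a linear function of `(w, t)`. -/
def ev (x : Fin d → ℝ) : ((Fin d → ℝ) × ℝ) →ₗ[ℝ] ℝ where
  toFun f := ∑ i, f.1 i * x i - f.2
  map_add' f g := by
    simp only [Prod.fst_add, Prod.snd_add, Pi.add_apply, add_mul, sum_add_distrib]; ring
  map_smul' c f := by
    simp only [Prod.smul_fst, Prod.smul_snd, Pi.smul_apply, smul_eq_mul, RingHom.id_apply, mul_sub,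
      mul_sum, mul_assoc]

theorem ev_apply (x : Fin d → ℝ) (f : (Fin d → ℝ) × ℝ) : ev x f = ∑ i, f.1 i * x i - f.2 := rfl

theorem fst_ne {f : (Fin d → ℝ) × ℝ} (hf : f ≠ 0) {x : Fin d → ℝ} (h : ev x f = 0) : f.1 ≠ 0 := by
  intro h1
  apply hf
  rw [ev_apply, h1] at h
  simp at h
  exact Prod.ext h1 h

theorem gp_card {P : Finset (Fin d → ℝ)} (hP : GeneralPosition P) {f : (Fin d → ℝ) × ℝ}
    (hf : f ≠ 0) {S : Finset (Fin d → ℝ)} (hS : S ⊆ P) (h : ∀ x ∈ S, ev x f = 0) : S.card ≤ d := by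
  rcases S.eq_empty_or_nonempty with rfl | ⟨y, hy⟩
  · simp
  · refine hP f.1 f.2 (fst_ne hf (h y hy)) S hS ?_
    intro x hx
    have := h x hx
    rw [ev_apply] at this
    linarith

/-- The evaluation map on a finite set of points. -/
def evs (S : Finset (Fin d → ℝ)) : ((Fin d → ℝ) × ℝ) →ₗ[ℝ] (S → ℝ) :=
  LinearMap.pi fun x => ev x.1

theorem evs_apply (S : Finset (Fin d → ℝ)) (f : (Fin d → ℝ) × ℝ) (x : S) :
    evs S f x = ev x.1 f := rfl

theorem finrank_V : Module.finrank ℝ ((Fin d → ℝ) × ℝ) = d + 1 := by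
  simp [Module.finrank_prod]

/-- Fewer than `d` points: the functionals vanishing on them are not all multiples of one. -/
theorem exists_ker2 {S : Finset (Fin d → ℝ)} (hS : S.card < d) (g : (Fin d → ℝ) × ℝ) :
    ∃ f : (Fin d → ℝ) × ℝ, (∀ x ∈ S, ev x f = 0) ∧ f ∉ Submodule.span ℝ {g} := by
  by_contra hcon
  push Not at hcon
  have hle : LinearMap.ker (evs S) ≤ Submodule.span ℝ {g} := by
    intro f hf
    apply hcon
    intro x hx
    have := congrFun (LinearMap.mem_ker.1 hf) ⟨x, hx⟩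
    exact this
  have h1 : Module.finrank ℝ (LinearMap.ker (evs S)) ≤ 1 :=
    (Submodule.finrank_mono hle).trans (by
      have := finrank_span_le_card (R := ℝ) ({g} : Set ((Fin d → ℝ) × ℝ))
      simpa using this)
  have h2 := LinearMap.finrank_range_add_finrank_ker (evs S)
  have h3 : Module.finrank ℝ (LinearMap.range (evs S)) ≤ S.card := by
    have := Submodule.finrank_le (LinearMap.range (evs S))
    simpa using this
  rw [finrank_V] at h2
  omega

theorem exists_ker1 {S : Finset (Fin d → ℝ)} (hS : S.card ≤ d) :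
    ∃ f : (Fin d → ℝ) × ℝ, (∀ x ∈ S, ev x f = 0) ∧ f ≠ 0 := by
  by_contra hcon
  push Not at hcon
  have hle : LinearMap.ker (evs S) = ⊥ := by
    rw [eq_bot_iff]
    intro f hf
    rw [Submodule.mem_bot]
    apply hcon
    intro x hx
    have := congrFun (LinearMap.mem_ker.1 hf) ⟨x, hx⟩
    exact this
  have h2 := LinearMap.finrank_range_add_finrank_ker (evs S)
  have h3 : Module.finrank ℝ (LinearMap.range (evs S)) ≤ S.card := by
    have := Submodule.finrank_le (LinearMap.range (evs S))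
    simpa using this
  rw [finrank_V, hle, finrank_bot] at h2
  omega

/-- `d` points of a set in general position with at least `d + 1` points: all values can be
prescribed. -/
theorem surj {P : Finset (Fin d → ℝ)} (hP : GeneralPosition P) (hcard : d + 1 ≤ P.card)
    {S : Finset (Fin d → ℝ)} (hS : S ⊆ P) (hSd : S.card = d) (v : (Fin d → ℝ) → ℝ) :
    ∃ u : (Fin d → ℝ) × ℝ, ∀ x ∈ S, ev x u = v x := by
  classical
  obtain ⟨z, hz, hzS⟩ : ∃ z ∈ P, z ∉ S := by
    by_contra hcon
    push Not at hcon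
    have := card_le_card (show P ⊆ S from hcon)
    omega
  have hT : (insert z S).card = d + 1 := by rw [card_insert_of_notMem hzS, hSd]
  have hTP : insert z S ⊆ P := insert_subset hz hS
  have hinj : Function.Injective (evs (insert z S)) := by
    rw [injective_iff_map_eq_zero]
    intro f hf
    by_contra hne
    have := gp_card hP hne hTP (fun x hx => congrFun hf ⟨x, hx⟩)
    omega
  have hsurj : Function.Surjective (evs (insert z S)) := by
    refine (LinearMap.injective_iff_surjective_of_finrank_eq_finrank ?_).1 hinj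
    rw [finrank_V, Module.finrank_fintype_fun_eq_card, Fintype.card_coe, hT]
  obtain ⟨u, hu⟩ := hsurj (fun x => v x.1)
  refine ⟨u, fun x hx => ?_⟩
  have := congrFun hu ⟨x, mem_insert_of_mem hx⟩
  exact this

/-- uniqueness of the hyperplane through `d` points -/
theorem unique {P : Finset (Fin d → ℝ)} (hP : GeneralPosition P) (hcard : d + 1 ≤ P.card)
    {S : Finset (Fin d → ℝ)} (hS : S ⊆ P) (hSd : S.card = d) {f g : (Fin d → ℝ) × ℝ}
    (hf : ∀ x ∈ S, ev x f = 0) (hg : ∀ x ∈ S, ev x g = 0) (hg0 : g ≠ 0) :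
    ∃ c : ℝ, f = c • g := by
  classical
  obtain ⟨z, hz, hzS⟩ : ∃ z ∈ P, z ∉ S := by
    by_contra hcon
    push Not at hcon
    have := card_le_card (show P ⊆ S from hcon)
    omega
  have hT : (insert z S).card = d + 1 := by rw [card_insert_of_notMem hzS, hSd]
  have hTP : insert z S ⊆ P := insert_subset hz hS
  have hgz : ev z g ≠ 0 := by
    intro h0
    have := gp_card hP hg0 hTP (by
      intro x hx
      rcases mem_insert.1 hx with rfl | hx
      · exact h0
      · exact hg x hx)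
    omega
  refine ⟨ev z f / ev z g, ?_⟩
  by_contra hne
  have hne' : f - (ev z f / ev z g) • g ≠ 0 := sub_ne_zero.2 hne
  have := gp_card hP hne' hTP (by
      intro x hx
      rw [map_sub, map_smul, smul_eq_mul]
      rcases mem_insert.1 hx with rfl | hx
      · field_simp
        ring
      · rw [hf x hx, hg x hx]; ring)
  omega

/-- Moving a weakly separating hyperplane until it touches `k ≤ d` points. -/
theorem touch {P : Finset (Fin d → ℝ)} (hP : GeneralPosition P) {T : Finset (Fin d → ℝ)}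
    (hT : T ⊆ P) (hTd : d + 1 ≤ T.card) (s : (Fin d → ℝ) → ℝ) (hs : ∀ x, s x ≠ 0)
    {f₀ : (Fin d → ℝ) × ℝ}
    (hf₀ : f₀ ≠ 0) (h₀ : ∀ x ∈ T, 0 ≤ s x * ev x f₀) (k : ℕ) (hk : k ≤ d) :
    ∃ f : (Fin d → ℝ) × ℝ, f ≠ 0 ∧ (∀ x ∈ T, 0 ≤ s x * ev x f) ∧
      k ≤ ({x ∈ T | ev x f = 0}).card := by
  classical
  induction k with
  | zero => exact ⟨f₀, hf₀, h₀, Nat.zero_le _⟩
  | succ k ih =>
    obtain ⟨f, hf, hw, hc⟩ := ih (by omega)
    rcases Nat.lt_or_ge k ({x ∈ T | ev x f = 0}).card with h1 | h1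
    · exact ⟨f, hf, hw, h1⟩
    have hZ : ({x ∈ T | ev x f = 0}).card = k := le_antisymm h1 hc
    obtain ⟨u₀, hu₀, hu₀f⟩ := exists_ker2 (S := {x ∈ T | ev x f = 0}) (by omega) f
    have hu₀0 : u₀ ≠ 0 := by
      rintro rfl
      exact hu₀f (Submodule.zero_mem _)
    -- some point where `u₀` does not vanish
    obtain ⟨y, hy, hyu⟩ : ∃ y ∈ T, ev y u₀ ≠ 0 := by
      by_contra hcon
      push Not at hcon
      have := gp_card hP hu₀0 hT hcon
      omega
    -- choose the sign
    obtain ⟨u, hu, huf, hyu⟩ : ∃ u : (Fin d → ℝ) × ℝ, (∀ x ∈ ({x ∈ T | ev x f = 0} : Finset _),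
        ev x u = 0) ∧ u ∉ Submodule.span ℝ {f} ∧ s y * ev y u < 0 := by
      rcases lt_or_gt_of_ne (mul_ne_zero (hs y) hyu) with h | h
      · exact ⟨u₀, hu₀, hu₀f, h⟩
      · refine ⟨-u₀, ?_, ?_, ?_⟩
        · intro x hx
          rw [map_neg, hu₀ x hx, neg_zero]
        · rwa [Submodule.neg_mem_iff]
        · rw [map_neg]; linarith
    obtain ⟨x₀, hx₀, hmin⟩ := exists_min_image ({x ∈ T | s x * ev x u < 0})
      (fun x => (s x * ev x f) / (-(s x * ev x u))) ⟨y, by simp [hy, hyu]⟩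
    obtain ⟨hx₀T, hx₀u⟩ := mem_filter.1 hx₀
    set r : ℝ := (s x₀ * ev x₀ f) / (-(s x₀ * ev x₀ u)) with hr
    have hr0 : 0 ≤ r := div_nonneg (hw x₀ hx₀T) (by linarith)
    refine ⟨f + r • u, ?_, ?_, ?_⟩
    · intro h0
      rcases eq_or_ne r 0 with hr' | hr'
      · rw [hr'] at h0
        simp at h0
        exact hf h0
      · apply huf
        rw [Submodule.mem_span_singleton]
        refine ⟨-r⁻¹, ?_⟩
        have : f = -(r • u) := eq_neg_of_add_eq_zero_left h0
        rw [this, smul_neg, neg_smul, neg_neg, smul_smul, inv_mul_cancel₀ hr', one_smul]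
    · intro x hx
      rw [map_add, map_smul, smul_eq_mul, mul_add]
      rcases le_or_gt 0 (s x * ev x u) with h | h
      · have := hw x hx
        nlinarith [mul_nonneg hr0 h]
      · have h2 := hmin x (by simp [hx, h])
        rw [le_div_iff₀ (by linarith)] at h2
        nlinarith
    · have hx₀Z : x₀ ∉ ({x ∈ T | ev x f = 0} : Finset _) := by
        intro hmem
        rw [hu x₀ hmem, mul_zero] at hx₀u
        exact lt_irrefl _ hx₀u
      have hsub : insert x₀ ({x ∈ T | ev x f = 0} : Finset _) ⊆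
          ({x ∈ T | ev x (f + r • u) = 0} : Finset _) := by
        intro x hx
        rcases mem_insert.1 hx with rfl | hx
        · rw [mem_filter]
          refine ⟨hx₀T, ?_⟩
          rw [map_add, map_smul, smul_eq_mul, hr]
          have h3 : s x * ev x u ≠ 0 := hx₀u.ne
          have h4 := hs x
          have h5 : ev x u ≠ 0 := right_ne_zero_of_mul h3
          field_simp
          ring
        · rw [mem_filter]
          refine ⟨(mem_filter.1 hx).1, ?_⟩
          rw [map_add, map_smul, smul_eq_mul, hu x hx, (mem_filter.1 hx).2]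
          ring
      have := card_le_card hsub
      rw [card_insert_of_notMem hx₀Z, hZ] at this
      exact this

/-- Every weakly separating hyperplane can be moved to one through exactly `d` points. -/
theorem compress {P : Finset (Fin d → ℝ)} (hP : GeneralPosition P) {T : Finset (Fin d → ℝ)}
    (hT : T ⊆ P) (hTd : d + 1 ≤ T.card) (s : (Fin d → ℝ) → ℝ) (hs : ∀ x, s x ≠ 0)
    {f₀ : (Fin d → ℝ) × ℝ}
    (hf₀ : f₀ ≠ 0) (h₀ : ∀ x ∈ T, 0 ≤ s x * ev x f₀) :
    ∃ f : (Fin d → ℝ) × ℝ, f ≠ 0 ∧ ∃ S ⊆ T, S.card = d ∧ (∀ x ∈ S, ev x f = 0) ∧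
      ∀ x ∈ T, 0 ≤ s x * ev x f := by
  classical
  obtain ⟨f, hf, hw, hc⟩ := touch hP hT hTd s hs hf₀ h₀ d le_rfl
  refine ⟨f, hf, ({x ∈ T | ev x f = 0} : Finset _), filter_subset _ _, ?_, ?_, hw⟩
  · refine le_antisymm ?_ hc
    exact gp_card hP hf ((filter_subset _ _).trans hT) (fun x hx => (mem_filter.1 hx).2)
  · intro x hx
    exact (mem_filter.1 hx).2

/-- The perturbation lemma. -/
theorem perturb (hd : 1 ≤ d) {P : Finset (Fin d → ℝ)} (hP : GeneralPosition P)
    (hcard : d + 1 ≤ P.card) {A B : Finset (Fin d → ℝ)} (hAB : Disjoint A B)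
    {S : Finset (Fin d → ℝ)} (hS : S ⊆ P) (hSd : S.card = d)
    {f : (Fin d → ℝ) × ℝ} (hf : f ≠ 0) (hfS : ∀ x ∈ S, ev x f = 0)
    (hA : ∀ x ∈ A, x ∉ S → 0 < ev x f) (hB : ∀ x ∈ B, x ∉ S → ev x f < 0) :
    Separated A B := by
  classical
  obtain ⟨u, hu⟩ := surj hP hcard hS hSd (fun x => if x ∈ A then 1 else -1)
  have hS0 : S.Nonempty := card_pos.1 (by omega)
  obtain ⟨y, hy⟩ := hS0
  obtain ⟨i, hi⟩ : ∃ i, f.1 i ≠ 0 := by
    by_contra hcon
    push Not at hcon
    exact fst_ne hf (hfS y hy) (funext hcon)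
  have hcont : ∀ a b : ℝ, Tendsto (fun η : ℝ => a + η * b) (𝓝[>] 0) (𝓝 a) := by
    intro a b
    have h1 : Continuous (fun η : ℝ => a + η * b) := by fun_prop
    have h2 := h1.tendsto 0
    simp only [zero_mul, add_zero] at h2
    exact h2.mono_left nhdsWithin_le_nhds
  have h1 : ∀ᶠ η : ℝ in 𝓝[>] 0, f.1 i + η * u.1 i ≠ 0 :=
    (hcont _ _).eventually_ne hi
  have h2 : ∀ᶠ η : ℝ in 𝓝[>] 0, ∀ x ∈ A, 0 < ev x f + η * ev x u := by
    rw [eventually_all_finset]
    intro x hx
    by_cases hxS : x ∈ S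
    · filter_upwards [self_mem_nhdsWithin] with η hη
      rw [hfS x hxS, hu x hxS, if_pos hx]
      simpa using hη
    · exact (hcont _ _).eventually_const_lt (hA x hx hxS)
  have h3 : ∀ᶠ η : ℝ in 𝓝[>] 0, ∀ x ∈ B, ev x f + η * ev x u < 0 := by
    rw [eventually_all_finset]
    intro x hx
    by_cases hxS : x ∈ S
    · filter_upwards [self_mem_nhdsWithin] with η hη
      have hxA : x ∉ A := fun h => (Finset.disjoint_left.1 hAB h) hx
      rw [hfS x hxS, hu x hxS, if_neg hxA]
      have : (0 : ℝ) < η := hη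
      linarith
    · exact (hcont _ _).eventually_lt_const (hB x hx hxS)
  obtain ⟨η, h1, h2, h3⟩ := (h1.and (h2.and h3)).exists
  refine ⟨(f + η • u).1, (f + η • u).2, ?_, ?_, ?_⟩
  · intro h0
    have := congrFun h0 i
    simp at this
    exact h1 this
  · intro x hx
    have h4 := h2 x hx
    have h5 : ev x (f + η • u) = ev x f + η * ev x u := by
      rw [map_add, map_smul, smul_eq_mul]
    rw [← h5, ev_apply] at h4
    linarith
  · intro x hx
    have h4 := h3 x hx
    have h5 : ev x (f + η • u) = ev x f + η * ev x u := by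
      rw [map_add, map_smul, smul_eq_mul]
    rw [← h5, ev_apply] at h4
    linarith

theorem separated_empty_right (hd : 1 ≤ d) (P : Finset (Fin d → ℝ)) : Separated P ∅ := by
  classical
  obtain ⟨t, ht⟩ : ∃ t : ℝ, ∀ x ∈ P, t < ∑ i, (1 : Fin d → ℝ) i * x i := by
    obtain ⟨b, hb⟩ := (P.finite_toSet.image (fun x => ∑ i, (1 : Fin d → ℝ) i * x i)).bddBelow
    refine ⟨b - 1, fun x hx => ?_⟩
    have := hb (Set.mem_image_of_mem _ hx)
    linarith
  refine ⟨1, t, ?_, ht, by simp⟩
  intro h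
  have := congrFun h ⟨0, hd⟩
  simp at this

theorem separated_symm {P Q : Finset (Fin d → ℝ)} (h : Separated P Q) : Separated Q P := by
  obtain ⟨w, t, hw, h1, h2⟩ := h
  refine ⟨-w, -t, neg_ne_zero.2 hw, ?_, ?_⟩
  · intro x hx
    have := h2 x hx
    simp only [Pi.neg_apply, neg_mul, sum_neg_distrib]
    linarith
  · intro x hx
    have := h1 x hx
    simp only [Pi.neg_apply, neg_mul, sum_neg_distrib]
    linarith

/-- Kirchberger's theorem. -/
theorem kirchberger (hd : 1 ≤ d) [DecidableEq (Fin d → ℝ)] {A B T : Finset (Fin d → ℝ)}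
    (hT : d + 2 ≤ T.card)
    (h : ∀ S ⊆ T, S.card = d + 2 → Separated (A ∩ S) (B ∩ S)) :
    Separated (A ∩ T) (B ∩ T) := by
  let F : (Fin d → ℝ) → Set ((Fin d → ℝ) × ℝ) := fun x =>
    {f | (x ∈ A → 0 < ev x f) ∧ (x ∈ B → ev x f < 0)}
  have hconv : ∀ x ∈ T, Convex ℝ (F x) := by
    intro x _ f hf g hg a b ha hb hab
    have hcase : ∀ p q : ℝ, 0 < p → 0 < q → 0 < a * p + b * q := by
      intro p q hp hq
      rcases eq_or_lt_of_le ha with h0 | h0
      · have : b = 1 := by linarith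
        rw [← h0, this]; linarith
      · nlinarith [mul_pos h0 hp, mul_nonneg hb hq.le]
    constructor
    · intro hxA
      rw [map_add, map_smul, map_smul, smul_eq_mul, smul_eq_mul]
      exact hcase _ _ (hf.1 hxA) (hg.1 hxA)
    · intro hxB
      rw [map_add, map_smul, map_smul, smul_eq_mul, smul_eq_mul]
      have := hcase _ _ (neg_pos.2 (hf.2 hxB)) (neg_pos.2 (hg.2 hxB))
      linarith
  have hne : (⋂ x ∈ T, F x).Nonempty := by
    refine Convex.helly_theorem (𝕜 := ℝ) ?_ hconv ?_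
    · rw [finrank_V]; exact hT
    · intro S hS hSc
      rw [finrank_V] at hSc
      obtain ⟨w, t, _, h1, h2⟩ := h S hS hSc
      refine ⟨(w, t), ?_⟩
      rw [Set.mem_iInter₂]
      intro x hx
      constructor
      · intro hxA
        have := h1 x (mem_inter.2 ⟨hxA, hx⟩)
        rw [ev_apply]
        linarith
      · intro hxB
        have := h2 x (mem_inter.2 ⟨hxB, hx⟩)
        rw [ev_apply]
        linarith
  obtain ⟨f, hf⟩ := hne
  rw [Set.mem_iInter₂] at hf
  rcases (A ∩ T).eq_empty_or_nonempty with hA | ⟨a, ha⟩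
  · rw [hA]
    exact separated_symm (separated_empty_right hd _)
  rcases (B ∩ T).eq_empty_or_nonempty with hB | ⟨b, hb⟩
  · rw [hB]
    exact separated_empty_right hd _
  obtain ⟨haA, haT⟩ := mem_inter.1 ha
  obtain ⟨hbB, hbT⟩ := mem_inter.1 hb
  refine ⟨f.1, f.2, ?_, ?_, ?_⟩
  · intro h0
    have h1 := (hf a haT).1 haA
    have h2 := (hf b hbT).2 hbB
    rw [ev_apply, h0] at h1 h2
    simp at h1 h2
    linarith
  · intro x hx
    obtain ⟨hxA, hxT⟩ := mem_inter.1 hx
    have h1 := (hf x hxT).1 hxA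
    rw [ev_apply] at h1
    linarith
  · intro x hx
    obtain ⟨hxB, hxT⟩ := mem_inter.1 hx
    have h1 := (hf x hxT).2 hxB
    rw [ev_apply] at h1
    linarith

end Pool.Agent.W282.Kirch
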