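import Pool.Agent.W282.Kirch

/-!
# A positive-fraction version of Kirchberger's theorem: counting
-/

open Finset Filter Topology

namespace Pool.Agent.W282.Kirch

variable {d : ℕ}

theorem card_avoid {α : Type*} [DecidableEq α] (P S M : Finset α) (hS : S ⊆ P) (hM : M ⊆ P)
    (hSM : Disjoint S M) (s : ℕ) :
    ({T ∈ P.powersetCard s | S ⊆ T ∧ Disjoint T M}).card ≤
      (P.card - S.card - M.card).choose (s - S.card) := by
  have h1 : (P \ (S ∪ M)).card = P.card - S.card - M.card := by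
    rw [card_sdiff_of_subset (union_subset hS hM), card_union_of_disjoint hSM, Nat.sub_sub]
  rw [← h1, ← card_powersetCard]
  refine card_le_card_of_injOn (fun T => T \ S) ?_ ?_
  · intro T hT
    rw [mem_coe, mem_filter, mem_powersetCard] at hT
    obtain ⟨⟨hTP, hTc⟩, hST, hTM⟩ := hT
    rw [mem_coe, mem_powersetCard]
    refine ⟨?_, by rw [card_sdiff_of_subset hST, hTc]⟩
    intro x hx
    simp only [Finset.mem_sdiff] at hx
    rw [Finset.mem_sdiff]
    refine ⟨hTP hx.1, ?_⟩
    rw [mem_union]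
    rintro (h | h)
    · exact hx.2 h
    · exact (Finset.disjoint_left.1 hTM hx.1) h
  · intro T hT T' hT' he
    rw [mem_coe, mem_filter] at hT hT'
    have h2 : T \ S = T' \ S := he
    rw [← sdiff_union_of_subset hT.2.1, ← sdiff_union_of_subset hT'.2.1, h2]

/-- the missing factor for smaller ground sets -/
theorem choose_ratio (a m k : ℕ) (x : ℝ) (hx0 : 0 ≤ x) (hx1 : x ≤ 1) (hm : x * a ≤ m) :
    ((a - m).choose k : ℝ) ≤ (1 - x) ^ k * a.choose k := by
  have key : ((a - m).descFactorial k : ℝ) ≤ (1 - x) ^ k * a.descFactorial k := by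
    induction k with
    | zero => simp
    | succ k ih =>
      rw [Nat.descFactorial_succ, Nat.descFactorial_succ]
      push_cast
      have h1 : ((a - m - k : ℕ) : ℝ) ≤ (1 - x) * ((a - k : ℕ) : ℝ) := by
        rcases Nat.lt_or_ge (a - m) (k + 1) with h | h
        · have : a - m - k = 0 := by omega
          rw [this]
          simp only [Nat.cast_zero]
          exact mul_nonneg (by linarith) (Nat.cast_nonneg _)
        · have e1 : ((a - m - k : ℕ) : ℝ) = (a : ℝ) - m - k := by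
            rw [Nat.cast_sub (by omega), Nat.cast_sub (by omega)]
          have e2 : ((a - k : ℕ) : ℝ) = (a : ℝ) - k := by
            rw [Nat.cast_sub (by omega)]
          rw [e1, e2]
          have hk : (0 : ℝ) ≤ k := Nat.cast_nonneg _
          nlinarith [mul_nonneg hx0 hk]
      calc ((a - m - k : ℕ) : ℝ) * ((a - m).descFactorial k : ℝ)
          ≤ ((1 - x) * ((a - k : ℕ) : ℝ)) * ((1 - x) ^ k * a.descFactorial k) :=
            mul_le_mul h1 ih (Nat.cast_nonneg _)
              (mul_nonneg (by linarith) (Nat.cast_nonneg _))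
        _ = (1 - x) ^ (k + 1) * (((a - k : ℕ) : ℝ) * a.descFactorial k) := by ring
  have h2 : (0 : ℝ) < (k.factorial : ℝ) := by exact_mod_cast Nat.factorial_pos k
  have h3 : ((a - m).descFactorial k : ℝ) = k.factorial * (a - m).choose k := by
    rw [Nat.descFactorial_eq_factorial_mul_choose]; push_cast; ring
  have h4 : (a.descFactorial k : ℝ) = k.factorial * a.choose k := by
    rw [Nat.descFactorial_eq_factorial_mul_choose]; push_cast; ring
  rw [h3, h4] at key
  have h5 : (k.factorial : ℝ) * ((a - m).choose k : ℝ) ≤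
      k.factorial * ((1 - x) ^ k * a.choose k) := by linarith
  exact le_of_mul_le_mul_left h5 h2

theorem pow_choose_le (x : ℝ) (hx0 : 0 ≤ x) (hx1 : x ≤ 1) (k j : ℕ) :
    (k.choose j : ℝ) * x ^ j * (1 - x) ^ k ≤ 1 := by
  have h1 : (k.choose j : ℝ) * x ^ j ≤ (1 + x) ^ k := by
    rcases Nat.lt_or_ge k j with h | h
    · rw [Nat.choose_eq_zero_of_lt h]
      simp only [Nat.cast_zero, zero_mul]
      positivity
    · rw [add_comm, add_pow]
      have h2 : x ^ j * 1 ^ (k - j) * (k.choose j : ℝ) ≤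
          ∑ i ∈ range (k + 1), x ^ i * 1 ^ (k - i) * (k.choose i : ℝ) :=
        single_le_sum (f := fun i => x ^ i * 1 ^ (k - i) * (k.choose i : ℝ))
          (fun i _ => by positivity) (mem_range.2 (by omega))
      simpa [mul_comm] using h2
  have h2 : 0 ≤ (1 - x) ^ k := pow_nonneg (by linarith) k
  calc (k.choose j : ℝ) * x ^ j * (1 - x) ^ k ≤ (1 + x) ^ k * (1 - x) ^ k :=
        mul_le_mul_of_nonneg_right h1 h2
    _ = (1 - x ^ 2) ^ k := by rw [← mul_pow]; ring
    _ ≤ 1 := pow_le_one₀ (by nlinarith) (by nlinarith)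

/-- the numerical inequality -/
theorem numeric (d s : ℕ) (hd : 1 ≤ d) (δ : ℝ) (h0 : 0 < δ) (h1 : δ ≤ 1)
    (hs : (d + 1) * 4 ^ (d + 2) / δ ^ (d + 1) ≤ s) :
    4 * (s.choose d : ℝ) ≤ (s - d).choose (d + 1) * (δ / 2) ^ (d + 1) := by
  have hδp : 0 < δ ^ (d + 1) := by positivity
  have hδ1 : δ ^ (d + 1) ≤ 1 := pow_le_one₀ h0.le h1
  have hs' : ((d : ℝ) + 1) * 4 ^ (d + 2) ≤ s * δ ^ (d + 1) := by
    rwa [div_le_iff₀ hδp] at hs
  have hs4 : 4 * d ≤ s := by
    have h2 : ((d : ℝ) + 1) * 4 ^ (d + 2) ≤ s := by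
      refine hs'.trans ?_
      exact mul_le_of_le_one_right (Nat.cast_nonneg _) hδ1
    have h3 : (4 : ℝ) ≤ 4 ^ (d + 2) := by
      calc (4 : ℝ) = 4 ^ 1 := by norm_num
        _ ≤ 4 ^ (d + 2) := pow_le_pow_right₀ (by norm_num) (by omega)
    have hd0 : (0 : ℝ) ≤ d := Nat.cast_nonneg _
    have h4 : (4 : ℝ) * d ≤ s := by nlinarith
    exact_mod_cast h4
  have hA : (s.choose d : ℝ) ≤ (s : ℝ) ^ d / d.factorial := Nat.choose_le_pow_div d s
  have hB : (((s - d) + 1 - (d + 1) : ℕ) : ℝ) ^ (d + 1) ≤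
      (d + 1).factorial * ((s - d).choose (d + 1) : ℝ) := by
    have h := Nat.pow_le_choose (α := ℝ) (d + 1) (s - d)
    rw [div_le_iff₀ (by positivity)] at h
    linarith
  have hC : (s : ℝ) / 2 ≤ (((s - d) + 1 - (d + 1) : ℕ) : ℝ) := by
    have e : (s - d) + 1 - (d + 1) = s - 2 * d := by omega
    rw [e, Nat.cast_sub (by omega)]
    have : (4 : ℝ) * d ≤ s := by exact_mod_cast hs4
    push_cast
    linarith
  have hs0 : (0 : ℝ) ≤ s := Nat.cast_nonneg _
  have hD : ((s : ℝ) / 2) ^ (d + 1) ≤ (d + 1).factorial * ((s - d).choose (d + 1) : ℝ) :=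
    (pow_le_pow_left₀ (by positivity) hC _).trans hB
  have hfac : ((d + 1).factorial : ℝ) = (d + 1) * d.factorial := by
    rw [Nat.factorial_succ]; push_cast; ring
  have hf0 : (0 : ℝ) < d.factorial := by exact_mod_cast Nat.factorial_pos d
  have hd1 : (0 : ℝ) < (d : ℝ) + 1 := by positivity
  -- multiply everything by (d+1)!
  have hE : 4 * (s.choose d : ℝ) * (d + 1).factorial ≤
      ((s - d).choose (d + 1) * (δ / 2) ^ (d + 1)) * (d + 1).factorial := by
    have e1 : 4 * (s.choose d : ℝ) * (d + 1).factorial ≤ 4 * (d + 1) * (s : ℝ) ^ d := by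
      rw [hfac]
      have := (le_div_iff₀ hf0).1 hA
      nlinarith
    have e2 : 4 * ((d : ℝ) + 1) * (s : ℝ) ^ d ≤ ((s : ℝ) / 2) ^ (d + 1) * (δ / 2) ^ (d + 1) := by
      have e3 : ((s : ℝ) / 2) ^ (d + 1) * (δ / 2) ^ (d + 1) =
          (s : ℝ) ^ d * (s * δ ^ (d + 1)) / 4 ^ (d + 1) := by
        rw [← mul_pow, show (s : ℝ) / 2 * (δ / 2) = (s * δ) / 4 by ring, div_pow, mul_pow]
        ring
      rw [e3, le_div_iff₀ (by positivity)]
      calc 4 * ((d : ℝ) + 1) * (s : ℝ) ^ d * 4 ^ (d + 1)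
          = (s : ℝ) ^ d * (((d : ℝ) + 1) * 4 ^ (d + 2)) := by ring
        _ ≤ (s : ℝ) ^ d * (s * δ ^ (d + 1)) :=
          mul_le_mul_of_nonneg_left hs' (by positivity)
    have e4 : ((s : ℝ) / 2) ^ (d + 1) * (δ / 2) ^ (d + 1) ≤
        ((d + 1).factorial * ((s - d).choose (d + 1) : ℝ)) * (δ / 2) ^ (d + 1) :=
      mul_le_mul_of_nonneg_right hD (by positivity)
    linarith
  exact le_of_mul_le_mul_right hE (by positivity)

/-- If every hyperplane through `d` points misclassifies at least `m` points, then few `s`-subsets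
are separated. -/
theorem card_sep (hd : 1 ≤ d) [DecidableEq (Fin d → ℝ)] {A B : Finset (Fin d → ℝ)}
    (hAB : Disjoint A B) (hgp : GeneralPosition (A ∪ B)) (hcard : d + 1 ≤ (A ∪ B).card) (m s : ℕ)
    (hs : d + 1 ≤ s)
    (hfar : ∀ A' ⊆ A, ∀ B' ⊆ B, Separated A' B' → m + A'.card + B'.card ≤ A.card + B.card)
    (sep : Finset (Finset (Fin d → ℝ))) (hsepsub : sep ⊆ (A ∪ B).powersetCard s)
    (hsep : ∀ T ∈ sep, Separated (A ∩ T) (B ∩ T)) :
    sep.card ≤ 2 * (((A ∪ B).card).choose d * ((A ∪ B).card - d - m).choose (s - d)) := by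
  classical
  set P := A ∪ B with hP
  let σ : (Fin d → ℝ) → ℝ := fun x => if x ∈ A then 1 else -1
  have hσ : ∀ x, σ x ≠ 0 := by
    intro x
    simp only [σ]
    split_ifs <;> norm_num
  have hσA : ∀ x ∈ A, σ x = 1 := fun x hx => if_pos hx
  have hσB : ∀ x ∈ B, σ x = -1 := fun x hx =>
    if_neg (fun h => (Finset.disjoint_left.1 hAB h) hx)
  have hPc : P.card = A.card + B.card := by rw [hP, card_union_of_disjoint hAB]
  -- the misclassified points
  let M : ((Fin d → ℝ) × ℝ) → Finset (Fin d → ℝ) := fun f => {x ∈ P | σ x * ev x f < 0}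
  have hMcard : ∀ f : (Fin d → ℝ) × ℝ, f ≠ 0 → ∀ S ⊆ P, S.card = d → (∀ x ∈ S, ev x f = 0) →
      m ≤ (M f).card := by
    intro f hf S hS hSd hfS
    have hnz : ∀ x ∈ P, x ∉ S → ev x f ≠ 0 := by
      intro x hx hxS h0
      have := gp_card hgp hf (insert_subset hx hS) (by
        intro y hy
        rcases mem_insert.1 hy with rfl | hy
        · exact h0
        · exact hfS y hy)
      rw [card_insert_of_notMem hxS] at this
      omega
    have h1 := hfar (A \ M f) sdiff_subset (B \ M f) sdiff_subset (by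
      refine perturb hd hgp hcard ?_ hS hSd hf hfS ?_ ?_
      · exact hAB.mono sdiff_subset sdiff_subset
      · intro x hx hxS
        obtain ⟨hxA, hxM⟩ := mem_sdiff.1 hx
        have hxP : x ∈ P := mem_union_left _ hxA
        have h2 : ¬ (σ x * ev x f < 0) := fun h => hxM (mem_filter.2 ⟨hxP, h⟩)
        rw [hσA x hxA, one_mul] at h2
        exact lt_of_le_of_ne (not_lt.1 h2) (Ne.symm (hnz x hxP hxS))
      · intro x hx hxS
        obtain ⟨hxB, hxM⟩ := mem_sdiff.1 hx
        have hxP : x ∈ P := mem_union_right _ hxB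
        have h2 : ¬ (σ x * ev x f < 0) := fun h => hxM (mem_filter.2 ⟨hxP, h⟩)
        rw [hσB x hxB] at h2
        exact lt_of_le_of_ne (by linarith) (hnz x hxP hxS))
    have h2 : (P \ M f).card = (A \ M f).card + (B \ M f).card := by
      rw [hP, union_sdiff_distrib, card_union_of_disjoint (hAB.mono sdiff_subset sdiff_subset)]
    have h3 : (P \ M f).card + (M f).card = P.card := by
      rw [card_sdiff_add_card_eq_card (filter_subset _ _)]
    omega
  -- a functional for each `d`-subset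
  have hex : ∀ S : Finset (Fin d → ℝ), ∃ f : (Fin d → ℝ) × ℝ, S.card = d →
      (∀ x ∈ S, ev x f = 0) ∧ f ≠ 0 := by
    intro S
    by_cases hS : S.card = d
    · obtain ⟨f, hf⟩ := exists_ker1 hS.le
      exact ⟨f, fun _ => hf⟩
    · exact ⟨0, fun h => absurd h hS⟩
  choose fS hfS using hex
  let G : Finset (Fin d → ℝ) → Finset (Finset (Fin d → ℝ)) := fun S =>
    {T ∈ P.powersetCard s | S ⊆ T ∧ Disjoint T (M (fS S))} ∪
    {T ∈ P.powersetCard s | S ⊆ T ∧ Disjoint T (M (-(fS S)))}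
  have hcover : sep ⊆ (P.powersetCard d).biUnion G := by
    intro T hT
    have hTs := hsepsub hT
    obtain ⟨hTP, hTc⟩ := mem_powersetCard.1 hTs
    obtain ⟨w, t, hw, h1, h2⟩ := hsep T hT
    have hf₀ : ((w, t) : (Fin d → ℝ) × ℝ) ≠ 0 := by
      intro h
      exact hw (congrArg Prod.fst h)
    obtain ⟨f, hf, S, hST, hSd, hfS0, hfT⟩ := compress hgp hTP (by omega) σ hσ hf₀ (by
      intro x hx
      rcases mem_union.1 (hTP hx) with hxA | hxB
      · rw [hσA x hxA, ev_apply]
        have := h1 x (mem_inter.2 ⟨hxA, hx⟩)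
        simp only
        linarith
      · rw [hσB x hxB, ev_apply]
        have := h2 x (mem_inter.2 ⟨hxB, hx⟩)
        simp only
        linarith)
    obtain ⟨hfS1, hfS2⟩ := hfS S hSd
    obtain ⟨c, hc⟩ := unique hgp hcard (hST.trans hTP) hSd hfS0 hfS1 hfS2
    have hc0 : c ≠ 0 := by
      rintro rfl
      rw [zero_smul] at hc
      exact hf hc
    rw [mem_biUnion]
    refine ⟨S, mem_powersetCard.2 ⟨hST.trans hTP, hSd⟩, ?_⟩
    rcases lt_or_gt_of_ne hc0 with hneg | hpos
    · refine mem_union_right _ (mem_filter.2 ⟨hTs, hST, ?_⟩)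
      rw [Finset.disjoint_left]
      intro x hx hxM
      have h3 := (mem_filter.1 hxM).2
      have h4 := hfT x hx
      rw [hc, map_smul, smul_eq_mul] at h4
      rw [map_neg] at h3
      have h5 : 0 < σ x * ev x (fS S) := by linarith
      nlinarith
    · refine mem_union_left _ (mem_filter.2 ⟨hTs, hST, ?_⟩)
      rw [Finset.disjoint_left]
      intro x hx hxM
      have h3 := (mem_filter.1 hxM).2
      have h4 := hfT x hx
      rw [hc, map_smul, smul_eq_mul] at h4
      nlinarith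
  have hG : ∀ S ∈ P.powersetCard d, (G S).card ≤ 2 * (P.card - d - m).choose (s - d) := by
    intro S hS
    obtain ⟨hSP, hSd⟩ := mem_powersetCard.1 hS
    obtain ⟨hfS1, hfS2⟩ := hfS S hSd
    have hone : ∀ f : (Fin d → ℝ) × ℝ, f ≠ 0 → (∀ x ∈ S, ev x f = 0) →
        ({T ∈ P.powersetCard s | S ⊆ T ∧ Disjoint T (M f)}).card ≤
          (P.card - d - m).choose (s - d) := by
      intro f hf hfS'
      have h1 := card_avoid P S (M f) hSP (filter_subset _ _) (by
        rw [Finset.disjoint_left]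
        intro x hx hxM
        have := (mem_filter.1 hxM).2
        rw [hfS' x hx, mul_zero] at this
        exact lt_irrefl _ this) s
      rw [hSd] at h1
      refine h1.trans (Nat.choose_le_choose _ ?_)
      have := hMcard f hf S hSP hSd hfS'
      omega
    refine (card_union_le _ _).trans ?_
    have h1 := hone (fS S) hfS2 hfS1
    have h2 := hone (-(fS S)) (neg_ne_zero.2 hfS2) (fun x hx => by rw [map_neg, hfS1 x hx, neg_zero])
    omega
  calc sep.card ≤ ((P.powersetCard d).biUnion G).card := card_le_card hcover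
    _ ≤ ∑ S ∈ P.powersetCard d, (G S).card := card_biUnion_le
    _ ≤ ∑ S ∈ P.powersetCard d, 2 * (P.card - d - m).choose (s - d) := sum_le_sum hG
    _ = 2 * (P.card.choose d * (P.card - d - m).choose (s - d)) := by
      rw [sum_const, card_powersetCard, smul_eq_mul]; ring

/-- The counting argument. -/
theorem counting (hd : 1 ≤ d) [DecidableEq (Fin d → ℝ)] {A B : Finset (Fin d → ℝ)}
    (hAB : Disjoint A B) (hgp : GeneralPosition (A ∪ B)) (N : ℕ) (hA : A.card = N)
    (hB : B.card = N) (δ : ℝ) (hδ0 : 0 < δ) (hδ1 : δ ≤ 1) (s : ℕ) (hsd : d + 2 ≤ s)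
    (hsN : s ≤ 2 * N)
    (hs : (d + 1) * 4 ^ (d + 2) / δ ^ (d + 1) ≤ (s : ℝ))
    (bad : Finset (Finset (Fin d → ℝ)))
    (hbad : ∀ S ∈ (A ∪ B).powersetCard (d + 2), S ∉ bad → Separated (A ∩ S) (B ∩ S))
    (hfar : ∀ A' ⊆ A, ∀ B' ⊆ B, Separated A' B' →
      δ * N < (2 * N : ℕ) - (A'.card : ℝ) - B'.card) :
    ((2 * N).choose (d + 2) : ℝ) ≤ 2 * (bad.card * s.choose (d + 2)) := by
  classical
  set P := A ∪ B with hP
  have hPc : P.card = 2 * N := by rw [hP, card_union_of_disjoint hAB]; omega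
  let sep : Finset (Finset (Fin d → ℝ)) := {T ∈ P.powersetCard s | Separated (A ∩ T) (B ∩ T)}
  let nsep : Finset (Finset (Fin d → ℝ)) := {T ∈ P.powersetCard s | ¬ Separated (A ∩ T) (B ∩ T)}
  have hsum : sep.card + nsep.card = (2 * N).choose s := by
    rw [card_filter_add_card_filter_not, card_powersetCard, hPc]
  set m : ℕ := ⌈δ * N⌉₊ with hm
  have hsep : sep.card ≤ 2 * ((2 * N).choose d * (2 * N - d - m).choose (s - d)) := by
    rw [← hPc]
    refine card_sep hd hAB hgp (by rw [hPc]; omega) m s (by omega) ?_ sep (filter_subset _ _)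
      (fun T hT => (mem_filter.1 hT).2)
    intro A' hA' B' hB' h
    have h1 := hfar A' hA' B' hB' h
    have h2 := card_le_card hA'
    have h3 := card_le_card hB'
    rw [hA] at h2
    rw [hB] at h3
    have h4 : ((2 * N : ℕ) : ℝ) - (A'.card : ℝ) - B'.card = ((2 * N - A'.card - B'.card : ℕ) : ℝ) := by
      rw [Nat.cast_sub (by omega), Nat.cast_sub (by omega)]
    rw [h4] at h1
    have h5 : m ≤ 2 * N - A'.card - B'.card := by
      rw [hm, Nat.ceil_le]
      exact h1.le
    omega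
  -- at least half of the `s`-subsets are not separated
  have hhalf : 2 * sep.card ≤ (2 * N).choose s := by
    have hx0 : (0 : ℝ) ≤ δ / 2 := by positivity
    have hx1 : δ / 2 ≤ (1 : ℝ) := by linarith
    have h1 := choose_ratio (2 * N - d) m (s - d) (δ / 2) hx0 hx1 (by
      have h2 : ((2 * N - d : ℕ) : ℝ) ≤ (2 * N : ℕ) := by
        exact_mod_cast Nat.sub_le _ _
      have h3 : δ * N ≤ m := Nat.le_ceil _
      push_cast at h2
      nlinarith)
    have h2 := pow_choose_le (δ / 2) hx0 hx1 (s - d) (d + 1)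
    have h3 := numeric d s hd δ hδ0 hδ1 hs
    have h4 : (0 : ℝ) ≤ (1 - δ / 2) ^ (s - d) := pow_nonneg (by linarith) _
    have h5 : 4 * (s.choose d : ℝ) * (1 - δ / 2) ^ (s - d) ≤ 1 :=
      (mul_le_mul_of_nonneg_right h3 h4).trans h2
    have h6 : (2 * N).choose s * s.choose d = (2 * N).choose d * (2 * N - d).choose (s - d) :=
      Nat.choose_mul (by omega)
    have h6' : (((2 * N).choose s : ℕ) : ℝ) * (s.choose d : ℝ) =
        (((2 * N).choose d : ℕ) : ℝ) * ((2 * N - d).choose (s - d) : ℕ) := by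
      exact_mod_cast h6
    have h7 : (sep.card : ℝ) ≤ 2 * (((2 * N).choose d : ℕ) * ((2 * N - d - m).choose (s - d) : ℕ)) := by
      exact_mod_cast hsep
    have h8 : (2 : ℝ) * sep.card ≤ (2 * N).choose s := by
      calc (2 : ℝ) * sep.card
          ≤ 4 * (((2 * N).choose d : ℕ) * ((2 * N - d - m).choose (s - d) : ℕ)) := by linarith
        _ ≤ 4 * (((2 * N).choose d : ℕ) *
            ((1 - δ / 2) ^ (s - d) * ((2 * N - d).choose (s - d) : ℕ))) := by
            have := mul_le_mul_of_nonneg_left h1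
              (show (0 : ℝ) ≤ (((2 * N).choose d : ℕ) : ℝ) from Nat.cast_nonneg _)
            linarith
        _ = (4 * (s.choose d : ℝ) * (1 - δ / 2) ^ (s - d)) * ((2 * N).choose s : ℕ) := by
            calc _ = 4 * (1 - δ / 2) ^ (s - d) * ((((2 * N).choose d : ℕ) : ℝ) *
                ((2 * N - d).choose (s - d) : ℕ)) := by ring
              _ = _ := by rw [← h6']; ring
        _ ≤ 1 * ((2 * N).choose s : ℕ) :=
            mul_le_mul_of_nonneg_right h5 (Nat.cast_nonneg _)
        _ = (2 * N).choose s := by rw [one_mul]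
    exact_mod_cast h8
  have hnsep : (2 * N).choose s ≤ 2 * nsep.card := by omega
  -- each non-separated set contains a bad `(d+2)`-set
  have hcov : nsep ⊆ (bad ∩ P.powersetCard (d + 2)).biUnion
      (fun S => {T ∈ P.powersetCard s | S ⊆ T ∧ Disjoint T ∅}) := by
    intro T hT
    obtain ⟨hT1, hT2⟩ := mem_filter.1 hT
    obtain ⟨hTP, hTc⟩ := mem_powersetCard.1 hT1
    have : ∃ S ⊆ T, S.card = d + 2 ∧ ¬ Separated (A ∩ S) (B ∩ S) := by
      by_contra hcon
      push Not at hcon
      exact hT2 (kirchberger hd (by omega) hcon)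
    obtain ⟨S, hST, hSc, hS⟩ := this
    have hSP : S ∈ P.powersetCard (d + 2) := mem_powersetCard.2 ⟨hST.trans hTP, hSc⟩
    rw [mem_biUnion]
    refine ⟨S, mem_inter.2 ⟨?_, hSP⟩, mem_filter.2 ⟨hT1, hST, by simp⟩⟩
    by_contra h
    exact hS (hbad S hSP h)
  have hcount : nsep.card ≤ bad.card * (2 * N - (d + 2)).choose (s - (d + 2)) := by
    calc nsep.card ≤ _ := card_le_card hcov
      _ ≤ ∑ S ∈ bad ∩ P.powersetCard (d + 2), ({T ∈ P.powersetCard s | S ⊆ T ∧ Disjoint T ∅}).card :=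
          card_biUnion_le
      _ ≤ ∑ S ∈ bad ∩ P.powersetCard (d + 2), (2 * N - (d + 2)).choose (s - (d + 2)) := by
          refine sum_le_sum ?_
          intro S hS
          obtain ⟨hSP, hSc⟩ := mem_powersetCard.1 (mem_inter.1 hS).2
          have := card_avoid P S ∅ hSP (empty_subset _) (by simp) s
          rw [hPc, hSc, card_empty, Nat.sub_zero] at this
          exact this
      _ = (bad ∩ P.powersetCard (d + 2)).card * (2 * N - (d + 2)).choose (s - (d + 2)) := by
          rw [sum_const, smul_eq_mul]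
      _ ≤ bad.card * (2 * N - (d + 2)).choose (s - (d + 2)) :=
          Nat.mul_le_mul_right _ (card_le_card inter_subset_left)
  have h9 : (2 * N).choose s * s.choose (d + 2) =
      (2 * N).choose (d + 2) * (2 * N - (d + 2)).choose (s - (d + 2)) :=
    Nat.choose_mul hsd
  have h10 : 0 < (2 * N - (d + 2)).choose (s - (d + 2)) := Nat.choose_pos (by omega)
  have h11 : (2 * N).choose (d + 2) ≤ 2 * (bad.card * s.choose (d + 2)) := by
    refine Nat.le_of_mul_le_mul_right ?_ h10
    rw [← h9]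
    calc (2 * N).choose s * s.choose (d + 2)
        ≤ (2 * (bad.card * (2 * N - (d + 2)).choose (s - (d + 2)))) * s.choose (d + 2) := by
          refine Nat.mul_le_mul_right _ (hnsep.trans ?_)
          omega
      _ = 2 * (bad.card * s.choose (d + 2)) * (2 * N - (d + 2)).choose (s - (d + 2)) := by ring
  exact_mod_cast h11

/-- The positive-fraction Kirchberger theorem. -/
theorem main (hd : 1 ≤ d) [DecidableEq (Fin d → ℝ)] (ε : ℝ) (hε : 0 ≤ ε) (N : ℕ)
    (hN : d + 2 ≤ 2 * N) {A B : Finset (Fin d → ℝ)} (hA : A.card = N) (hB : B.card = N)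
    (hAB : Disjoint A B) (hgp : GeneralPosition (A ∪ B))
    (good : Finset (Finset (Fin d → ℝ)))
    (hgood : ∀ S, S ∈ good ↔ S ∈ (A ∪ B).powersetCard (d + 2) ∧ Separated (A ∩ S) (B ∩ S))
    (hcard : (1 - ε) * ((2 * N).choose (d + 2) : ℝ) ≤ good.card) :
    ∃ A' ⊆ A, ∃ B' ⊆ B, Separated A' B' ∧
      (1 - 16 * ε ^ (1 / (((d : ℝ) + 1) * (d + 2)))) * N ≤ A'.card ∧
      (1 - 16 * ε ^ (1 / (((d : ℝ) + 1) * (d + 2)))) * N ≤ B'.card := by
  classical
  set δ : ℝ := 16 * ε ^ (1 / (((d : ℝ) + 1) * (d + 2))) with hδ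
  set P := A ∪ B with hP
  have hPc : P.card = 2 * N := by rw [hP, card_union_of_disjoint hAB]; omega
  have hδ0 : 0 ≤ δ := by positivity
  let bad : Finset (Finset (Fin d → ℝ)) := P.powersetCard (d + 2) \ good
  have hgsub : good ⊆ P.powersetCard (d + 2) := fun S hS => ((hgood S).1 hS).1
  have hbc : (bad.card : ℝ) ≤ ε * ((2 * N).choose (d + 2) : ℝ) := by
    have h1 : bad.card + good.card = (2 * N).choose (d + 2) := by
      rw [card_sdiff_add_card_eq_card hgsub, card_powersetCard, hPc]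
    have h2 : (bad.card : ℝ) + good.card = (2 * N).choose (d + 2) := by exact_mod_cast h1
    linarith
  have hbad : ∀ S ∈ P.powersetCard (d + 2), S ∉ bad → Separated (A ∩ S) (B ∩ S) := by
    intro S hS hSb
    by_contra h
    apply hSb
    rw [Finset.mem_sdiff]
    exact ⟨hS, fun hg => h ((hgood S).1 hg).2⟩
  have hnobad : bad.card = 0 → ∃ A' ⊆ A, ∃ B' ⊆ B, Separated A' B' ∧
      (1 - δ) * N ≤ A'.card ∧ (1 - δ) * N ≤ B'.card := by
    intro h0
    have h1 : Separated (A ∩ P) (B ∩ P) := by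
      refine kirchberger hd (by omega) ?_
      intro S hS hSc
      refine hbad S (mem_powersetCard.2 ⟨hS, hSc⟩) ?_
      rw [card_eq_zero.1 h0]
      simp
    have h2 : A ∩ P = A := inter_eq_left.2 subset_union_left
    have h3 : B ∩ P = B := inter_eq_left.2 subset_union_right
    rw [h2, h3] at h1
    have hN0 : (0 : ℝ) ≤ N := Nat.cast_nonneg _
    refine ⟨A, Subset.rfl, B, Subset.rfl, h1, ?_, ?_⟩
    · rw [hA]; nlinarith
    · rw [hB]; nlinarith
  rcases le_or_gt 1 δ with h1 | hδ1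
  · refine ⟨∅, empty_subset _, ∅, empty_subset _, separated_empty_right hd _, ?_, ?_⟩
    · have hN0 : (0 : ℝ) ≤ N := Nat.cast_nonneg _
      simp only [card_empty, Nat.cast_zero]
      nlinarith
    · have hN0 : (0 : ℝ) ≤ N := Nat.cast_nonneg _
      simp only [card_empty, Nat.cast_zero]
      nlinarith
  rcases eq_or_lt_of_le hε with h0 | hε0
  · apply hnobad
    rw [← h0, zero_mul] at hbc
    exact_mod_cast le_antisymm hbc (Nat.cast_nonneg _)
  have hδpos : 0 < δ := by positivity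
  have hdpos : (0 : ℝ) < (d : ℝ) + 1 := by positivity
  have hd2pos : (0 : ℝ) < (d : ℝ) + 2 := by positivity
  -- the power identity
  have hpow : δ ^ ((d + 1) * (d + 2)) = 16 ^ ((d + 1) * (d + 2)) * ε := by
    rw [hδ, mul_pow, ← Real.rpow_natCast (ε ^ _), ← Real.rpow_mul hε]
    push_cast
    rw [one_div, inv_mul_cancel₀ (by positivity), Real.rpow_one]
  set K : ℝ := (d + 1) * 4 ^ (d + 2) with hK
  have hK1 : (d : ℝ) + 2 ≤ K := by
    have : (16 : ℝ) ≤ 4 ^ (d + 2) := by
      calc (16 : ℝ) = 4 ^ 2 := by norm_num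
        _ ≤ 4 ^ (d + 2) := pow_le_pow_right₀ (by norm_num) (by omega)
    have hd0 : (0 : ℝ) ≤ d := Nat.cast_nonneg _
    rw [hK]
    nlinarith
  have hK0 : 0 < K := by linarith
  have hδp1 : δ ^ (d + 1) ≤ 1 := pow_le_one₀ hδ0 hδ1.le
  have hδp0 : 0 < δ ^ (d + 1) := by positivity
  have hKq : K ≤ K / δ ^ (d + 1) := by
    rw [le_div_iff₀ hδp0]
    nlinarith
  set s : ℕ := ⌈K / δ ^ (d + 1)⌉₊ with hs
  have hs1 : K / δ ^ (d + 1) ≤ s := Nat.le_ceil _
  have hsd : d + 2 ≤ s := by
    have : ((d + 2 : ℕ) : ℝ) ≤ s := by push_cast; linarith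
    exact_mod_cast this
  have hs2 : (s : ℝ) ≤ 2 * K / δ ^ (d + 1) := by
    have h1 : (s : ℝ) < K / δ ^ (d + 1) + 1 := Nat.ceil_lt_add_one (by positivity)
    have h2 : 1 ≤ K / δ ^ (d + 1) := by linarith
    have h3 : 2 * K / δ ^ (d + 1) = K / δ ^ (d + 1) + K / δ ^ (d + 1) := by ring
    linarith
  -- the smallness of `ε`
  have h2K : 2 * K ≤ 16 ^ (d + 1) := by
    rw [hK]
    have h1 : ∀ n : ℕ, 1 ≤ n → 8 * ((n : ℝ) + 1) ≤ 4 ^ (n + 1) := by
      intro n hn
      induction n, hn using Nat.le_induction with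
      | base => norm_num
      | succ n hn ih =>
        rw [pow_succ]
        push_cast
        nlinarith
    have h2 := h1 d hd
    calc 2 * (((d : ℝ) + 1) * 4 ^ (d + 2)) = (8 * ((d : ℝ) + 1)) * 4 ^ (d + 1) := by ring
      _ ≤ 4 ^ (d + 1) * 4 ^ (d + 1) := mul_le_mul_of_nonneg_right h2 (by positivity)
      _ = 16 ^ (d + 1) := by rw [← mul_pow]; norm_num
  have hsε : (s : ℝ) ^ (d + 2) * ε ≤ 1 := by
    have h1 : (s : ℝ) ^ (d + 2) ≤ (2 * K / δ ^ (d + 1)) ^ (d + 2) :=
      pow_le_pow_left₀ (Nat.cast_nonneg _) hs2 _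
    have h2 : (2 * K / δ ^ (d + 1)) ^ (d + 2) * ε =
        (2 * K) ^ (d + 2) / 16 ^ ((d + 1) * (d + 2)) := by
      rw [div_pow, ← pow_mul, hpow]
      field_simp
    have h3 : (2 * K) ^ (d + 2) ≤ 16 ^ ((d + 1) * (d + 2)) := by
      rw [pow_mul]
      exact pow_le_pow_left₀ (by positivity) h2K _
    calc (s : ℝ) ^ (d + 2) * ε ≤ (2 * K / δ ^ (d + 1)) ^ (d + 2) * ε :=
          mul_le_mul_of_nonneg_right h1 hε
      _ = (2 * K) ^ (d + 2) / 16 ^ ((d + 1) * (d + 2)) := h2
      _ ≤ 1 := by rw [div_le_one (by positivity)]; exact h3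
  have hsch : 2 * (s.choose (d + 2) : ℝ) * ε < 1 := by
    have h1 : (s.choose (d + 2) : ℝ) ≤ (s : ℝ) ^ (d + 2) / (d + 2).factorial :=
      Nat.choose_le_pow_div _ _
    have h2 : (6 : ℝ) ≤ (d + 2).factorial := by
      have : Nat.factorial 3 ≤ (d + 2).factorial := Nat.factorial_le (by omega)
      have h3 : Nat.factorial 3 = 6 := rfl
      rw [h3] at this
      exact_mod_cast this
    rw [le_div_iff₀ (by positivity)] at h1
    have h4 : (0 : ℝ) ≤ s.choose (d + 2) := Nat.cast_nonneg _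
    have h5 : (s.choose (d + 2) : ℝ) * 6 ≤ (s : ℝ) ^ (d + 2) := by nlinarith
    nlinarith
  rcases Nat.lt_or_ge (2 * N) s with hlt | hge
  · apply hnobad
    have h1 : ((2 * N).choose (d + 2) : ℝ) ≤ s.choose (d + 2) := by
      exact_mod_cast Nat.choose_le_choose _ hlt.le
    have h2 : (bad.card : ℝ) < 1 := by nlinarith
    have h3 : bad.card < 1 := by exact_mod_cast h2
    omega
  · by_contra hcon
    push Not at hcon
    have h1 := counting hd hAB hgp N hA hB δ hδpos hδ1.le s hsd hge hs1 bad hbad (by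
      intro A' hA' B' hB' hsepAB
      have h2 := card_le_card hA'
      have h3 := card_le_card hB'
      rw [hA] at h2
      rw [hB] at h3
      have h2' : (A'.card : ℝ) ≤ N := by exact_mod_cast h2
      have h3' : (B'.card : ℝ) ≤ N := by exact_mod_cast h3
      push_cast
      rcases le_or_gt ((1 - δ) * N) (A'.card : ℝ) with h4 | h4
      · have h5 := hcon A' hA' B' hB' hsepAB h4
        linarith
      · linarith)
    have h2 : (0 : ℝ) < (2 * N).choose (d + 2) := by exact_mod_cast Nat.choose_pos hN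
    have h3 : (0 : ℝ) ≤ s.choose (d + 2) := Nat.cast_nonneg _
    have h4 : 2 * ((bad.card : ℝ) * s.choose (d + 2)) ≤
        2 * ((ε * ((2 * N).choose (d + 2) : ℝ)) * s.choose (d + 2)) := by
      have := mul_le_mul_of_nonneg_right hbc h3
      linarith
    have h5 : 2 * ((ε * ((2 * N).choose (d + 2) : ℝ)) * s.choose (d + 2)) <
        1 * ((2 * N).choose (d + 2) : ℝ) := by
      have := mul_lt_mul_of_pos_right hsch h2
      linarith
    linarith

end Pool.Agent.W282.Kirch
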